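import Pool.Agent.Helper35.PX.Goals

/-! MP_bec853_al, packet X3: elimination of a letter. -/

namespace Pool.Agent.Helper49.PX

open FreeGroup Pool.Agent.Helper35.PP Pool.Agent.Helper35.PX
open scoped ENNReal

/-- the powers of a letter -/
def pw {β : Type} (ρ : β) : Set (List β) := Set.range fun n : ℕ => List.replicate n ρ

/-- the one letter words -/
def one {β : Type} (X : Finset β) : Set (List β) := ⋃ x ∈ X, {[x]}

theorem W_pw {β : Type} (ρ : β) (ζ : ℝ≥0∞) : W ζ (pw ρ) ≤ (1 - ζ)⁻¹ := by
  rw [← ENNReal.tsum_geometric]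
  have hs : Function.Surjective (fun n : ℕ => (⟨List.replicate n ρ, ⟨n, rfl⟩⟩ : pw ρ)) := by
    rintro ⟨w, n, rfl⟩
    exact ⟨n, rfl⟩
  have h := ENNReal.tsum_le_tsum_comp_of_surjective hs
    (fun w : pw ρ => ζ ^ (w : List β).length)
  refine h.trans (le_of_eq ?_)
  simp

theorem W_one {β : Type} (X : Finset β) (ζ : ℝ≥0∞) : W ζ (one X) ≤ X.card * ζ := by
  refine (W_biUnion_le ζ X _).trans (le_of_eq ?_)
  simp [W_singleton]

/-- `ρ^n x` with `n ≥ 1` -/
def Dd {β : Type} (ρ : β) (X : Finset β) : Set (List β) := app (app {[ρ]} (pw ρ)) (one X)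

theorem W_Dd {β : Type} (ρ : β) (X : Finset β) (ζ : ℝ≥0∞) :
    W ζ (Dd ρ X) ≤ (ζ * (1 - ζ)⁻¹) * (X.card * ζ) := by
  refine (W_app_le _ _ _).trans ?_
  refine mul_le_mul' ((W_app_le _ _ _).trans ?_) (W_one X ζ)
  refine mul_le_mul' (le_of_eq ?_) (W_pw ρ ζ)
  rw [W_singleton]
  simp

theorem split_replicate {β : Type} (ρ : β) (l : List β) :
    ∃ (n : ℕ) (u : List β), l = List.replicate n ρ ++ u ∧
      (u = [] ∨ ∃ y u', u = y :: u' ∧ y ≠ ρ) := by
  induction l with
  | nil => exact ⟨0, [], rfl, Or.inl rfl⟩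
  | cons a l ih =>
    by_cases h : a = ρ
    · subst h
      obtain ⟨n, u, h1, h2⟩ := ih
      refine ⟨n + 1, u, ?_, h2⟩
      rw [List.replicate_succ, List.cons_append, ← h1]
    · exact ⟨0, a :: l, rfl, Or.inr ⟨a, l, rfl, h⟩⟩

theorem stmtElimF : StmtElimF := by
  intro β z w0 S ρ X hz hz1 hS hX hw0 hW hlt
  classical
  set ζ := ENNReal.ofReal z with hζ
  set S0 : Set (List β) := {v | v ∈ S ∧ ρ ∉ v} with hS0
  have hz1' : 0 < 1 - z := by linarith
  set d : ℝ := (X.card : ℝ) * z ^ 2 / (1 - z) with hd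
  have hd0 : 0 ≤ d := by positivity
  set K : ℝ := w0 / ((1 - z) * (1 - d * w0)) with hK
  have hlt' : 0 < 1 - d * w0 := by linarith
  have hK0 : 0 ≤ K := by positivity
  have hinv : (1 - ζ)⁻¹ = ENNReal.ofReal (1 / (1 - z)) := by
    rw [hζ, ← ENNReal.ofReal_one, ← ENNReal.ofReal_sub 1 hz, ← ENNReal.ofReal_inv_of_pos hz1',
      one_div]
  have hD : W ζ (Dd ρ X) ≤ ENNReal.ofReal d := by
    refine (W_Dd ρ X ζ).trans (le_of_eq ?_)
    rw [hinv, hζ, ← ENNReal.ofReal_natCast, ← ENNReal.ofReal_mul hz,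
      ← ENNReal.ofReal_mul (Nat.cast_nonneg _), ← ENNReal.ofReal_mul (by positivity)]
    congr 1
    rw [hd]
    field_simp
  have key : ∀ n : ℕ, S ∩ {w | w.length < n + 1} ⊆
      app S0 (pw ρ) ∪ app S0 (app (Dd ρ X) (S ∩ {w | w.length < n})) := by
    rintro n v ⟨hv, hlen⟩
    by_cases hρ : ρ ∈ v
    · obtain ⟨v0, rest, hvr, hv0⟩ := List.eq_append_cons_of_mem hρ
      obtain ⟨m, u, hu, hcase⟩ := split_replicate ρ rest
      have hv0S : v0 ∈ S := hS [] v0 (ρ :: rest) (by rw [List.nil_append, ← hvr]; exact hv)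
      rcases hcase with rfl | ⟨y, u', rfl, hy⟩
      · left
        refine ⟨v0, ⟨hv0S, hv0⟩, List.replicate (m + 1) ρ, ⟨m + 1, rfl⟩, ?_⟩
        rw [hvr, hu, List.append_nil, List.replicate_succ]
      · right
        have hv2 : v = v0 ++ ((ρ :: List.replicate m ρ ++ [y]) ++ u') := by
          rw [hvr, hu]
          simp
        have hyX : y ∈ X := by
          refine hX (v0 ++ List.replicate m ρ) y u' ?_
          have h3 : ρ :: List.replicate m ρ = List.replicate m ρ ++ [ρ] := by
            rw [← List.replicate_succ, List.replicate_succ']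
          have h4 : v0 ++ List.replicate m ρ ++ ρ :: y :: u' = v := by
            rw [hv2, h3]
            simp
          rw [h4]
          exact hv
        have hu'S : u' ∈ S := by
          refine hS (v0 ++ (ρ :: List.replicate m ρ ++ [y])) u' [] ?_
          rw [List.append_nil, List.append_assoc, ← hv2]
          exact hv
        refine ⟨v0, ⟨hv0S, hv0⟩, (ρ :: List.replicate m ρ ++ [y]) ++ u', ?_, hv2⟩
        refine ⟨_, ?_, u', ⟨hu'S, ?_⟩, rfl⟩
        · refine ⟨ρ :: List.replicate m ρ, ⟨[ρ], rfl, List.replicate m ρ, ⟨m, rfl⟩, rfl⟩, [y],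
            ?_, rfl⟩
          simp only [one, Set.mem_iUnion, exists_prop]
          exact ⟨y, hyX, rfl⟩
        · have hlen' : v.length < n + 1 := hlen
          rw [hv2] at hlen'
          simp only [List.length_append, List.length_cons, List.length_replicate,
            List.length_nil] at hlen'
          show u'.length < n
          omega
    · left
      exact ⟨v, ⟨hv, hρ⟩, [], ⟨0, rfl⟩, by simp⟩
  have hmain : ∀ n : ℕ, W ζ (S ∩ {w | w.length < n}) ≤ ENNReal.ofReal K := by
    intro n
    induction n with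
    | zero =>
      have : S ∩ {w : List β | w.length < 0} = ∅ := by
        ext w
        simp
      rw [this, W_empty]
      exact zero_le
    | succ n ih =>
      refine (W_mono (key n)).trans ((W_union_le _ _ _).trans ?_)
      have h1 : W ζ (app S0 (pw ρ)) ≤ ENNReal.ofReal (w0 * (1 / (1 - z))) := by
        refine (W_app_le _ _ _).trans ?_
        rw [ENNReal.ofReal_mul hw0, ← hinv]
        exact mul_le_mul' hW (W_pw ρ ζ)
      have h2 : W ζ (app S0 (app (Dd ρ X) (S ∩ {w | w.length < n}))) ≤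
          ENNReal.ofReal (w0 * (d * K)) := by
        refine (W_app_le _ _ _).trans ?_
        rw [ENNReal.ofReal_mul hw0, ENNReal.ofReal_mul hd0]
        exact mul_le_mul' hW ((W_app_le _ _ _).trans (mul_le_mul' hD ih))
      refine (add_le_add h1 h2).trans ?_
      rw [← ENNReal.ofReal_add (by positivity) (by positivity)]
      refine ENNReal.ofReal_le_ofReal (le_of_eq ?_)
      have e1 : 1 - z ≠ 0 := hz1'.ne'
      have e2 : 1 - d * w0 ≠ 0 := hlt'.ne'
      have e3 : K * ((1 - z) * (1 - d * w0)) = w0 := by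
        rw [hK]
        exact div_mul_cancel₀ _ (mul_ne_zero e1 e2)
      have e4 : K = w0 * (1 / (1 - z)) + w0 * (d * K) := by
        have e5 : (1 - z) * K = (1 - z) * (w0 * (1 / (1 - z)) + w0 * (d * K)) := by
          have e6 : (1 - z) * (w0 * (1 / (1 - z))) = w0 := by
            field_simp
          rw [mul_add, e6]
          linear_combination e3
        exact mul_left_cancel₀ e1 e5
      exact e4.symm
  refine W_le_of_trunc fun n => ?_
  refine (W_mono ?_).trans (hmain (n + 1))
  rintro v ⟨hv, hl⟩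
  exact ⟨hv, Nat.lt_succ_of_le hl⟩

theorem stmtElimP : StmtElimP := by
  intro β z w0 S ρ X hz hz1 hS hX hw0 hW hlt
  have h := stmtElimF β z w0 (List.reverse ⁻¹' S) ρ X hz hz1 ?_ ?_ hw0 ?_ hlt
  · refine le_trans ?_ h
    have h2 : S = List.reverse ⁻¹' (List.reverse ⁻¹' S) := by
      ext w
      simp
    conv_lhs => rw [h2]
    exact W_preimage_le _ List.reverse List.reverse_injective (fun w => List.length_reverse) _
  · intro a b c h
    have h2 : c.reverse ++ b.reverse ++ a.reverse ∈ S := by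
      have h3 : (a ++ b ++ c).reverse ∈ S := h
      rw [List.reverse_append, List.reverse_append] at h3
      rwa [List.append_assoc]
    exact hS _ _ _ h2
  · intro a y b h
    have h3 : (a ++ ρ :: y :: b).reverse ∈ S := h
    refine hX b.reverse y a.reverse ?_
    have h4 : (a ++ ρ :: y :: b).reverse = b.reverse ++ y :: ρ :: a.reverse := by simp
    rwa [h4] at h3
  · refine le_trans ?_ hW
    have h2 : {v | v ∈ List.reverse ⁻¹' S ∧ ρ ∉ v} = List.reverse ⁻¹' {v | v ∈ S ∧ ρ ∉ v} := by
      ext w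
      simp
    rw [h2]
    exact W_preimage_le _ List.reverse List.reverse_injective (fun w => List.length_reverse) _

end Pool.Agent.Helper49.PX
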