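import Pool.Agent.Helper35.PX.Goals

/-! MP_bec853_al, packet X7: the lower bound. -/

namespace Pool.Agent.Helper49.PX

open FreeGroup Pool.Agent.Helper35.PP Pool.Agent.Helper35.PX
open scoped ENNReal

section

variable {α : Type} [Fintype α] [DecidableEq α] (i : α)

/-- the letters different from `i` which do not cancel with the head of `g` -/
def allowed (g : FreeGroup α) : Finset (α × Bool) :=
  Finset.univ.filter (fun x => x.1 ≠ i ∧ hd g ≠ some (nv x))

/-- the words of length `n` without the letter `i` -/
def LL : ℕ → Finset (FreeGroup α)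
  | 0 => {1}
  | n + 1 => (LL n).biUnion fun g => (allowed i g).image fun x => el x * g

theorem card_allowed (g : FreeGroup α) : 2 * Fintype.card α - 3 ≤ (allowed i g).card := by
  have h1 : ((Finset.univ : Finset (α × Bool)).filter (fun x => x.1 ≠ i)).card =
      2 * Fintype.card α - 2 := by
    have h2 : (Finset.univ : Finset (α × Bool)).filter (fun x => x.1 ≠ i) =
        (Finset.univ.erase i) ×ˢ (Finset.univ : Finset Bool) := by
      ext x
      simp
    rw [h2, Finset.card_product, Finset.card_erase_of_mem (Finset.mem_univ i), Finset.card_univ,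
      Finset.card_univ, Fintype.card_bool]
    omega
  rcases hg : hd g with _ | y
  · have h3 : allowed i g = (Finset.univ : Finset (α × Bool)).filter (fun x => x.1 ≠ i) := by
      unfold allowed
      simp [hg]
    rw [h3, h1]
    omega
  · have h3 : ((Finset.univ : Finset (α × Bool)).filter (fun x => x.1 ≠ i)).erase (nv y) ⊆
        allowed i g := by
      intro x hx
      rw [Finset.mem_erase, Finset.mem_filter] at hx
      unfold allowed
      rw [Finset.mem_filter]
      refine ⟨Finset.mem_univ _, hx.2.2, ?_⟩
      rw [hg]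
      intro h
      apply hx.1
      rw [Option.some_inj.mp h, nv_nv]
    have h4 := Finset.card_le_card h3
    have h5 := Finset.pred_card_le_card_erase (a := nv y)
      (s := (Finset.univ : Finset (α × Bool)).filter (fun x => x.1 ≠ i))
    omega

theorem mem_LL {n : ℕ} : ∀ g ∈ LL i n, g ∈ ZS i ∧ g.norm = n := by
  induction n with
  | zero =>
    intro g hg
    rw [LL, Finset.mem_singleton] at hg
    subst hg
    exact ⟨(ZS i).one_mem, FreeGroup.norm_one⟩
  | succ n ih =>
    intro g hg
    rw [LL, Finset.mem_biUnion] at hg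
    obtain ⟨g', hg', h⟩ := hg
    obtain ⟨x, hx, rfl⟩ := Finset.mem_image.mp h
    unfold allowed at hx
    rw [Finset.mem_filter] at hx
    obtain ⟨h1, h2⟩ := ih g' hg'
    have h3 := toWord_el_mul_of hx.2.2
    constructor
    · show ∀ p ∈ (el x * g').toWord, p.1 ≠ i
      rw [h3]
      intro p hp
      rcases List.mem_cons.mp hp with rfl | hp
      · exact hx.2.1
      · exact h1 p hp
    · unfold FreeGroup.norm
      rw [h3, List.length_cons]
      unfold FreeGroup.norm at h2
      rw [h2]

theorem card_LL (n : ℕ) : (2 * Fintype.card α - 3) ^ n ≤ (LL i n).card := by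
  induction n with
  | zero => simp [LL]
  | succ n ih =>
    rw [LL, Finset.card_biUnion]
    · have h1 : ∀ g ∈ LL i n, 2 * Fintype.card α - 3 ≤
          ((allowed i g).image fun x => el x * g).card := by
        intro g _
        rw [Finset.card_image_of_injOn]
        · exact card_allowed i g
        · intro x hx y hy hxy
          simp only at hxy
          have hx' := (Finset.mem_filter.mp hx).2.2
          have hy' := (Finset.mem_filter.mp hy).2.2
          have h2 := congrArg FreeGroup.toWord hxy
          rw [toWord_el_mul_of hx', toWord_el_mul_of hy'] at h2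
          exact (List.cons.inj h2).1
      calc (2 * Fintype.card α - 3) ^ (n + 1)
          = (2 * Fintype.card α - 3) ^ n * (2 * Fintype.card α - 3) := pow_succ _ _
        _ ≤ (LL i n).card * (2 * Fintype.card α - 3) := Nat.mul_le_mul_right _ ih
        _ = ∑ _g ∈ LL i n, (2 * Fintype.card α - 3) := by
            rw [Finset.sum_const, smul_eq_mul]
        _ ≤ _ := Finset.sum_le_sum h1
    · intro g _ g' _ hne
      rw [Function.onFun, Finset.disjoint_left]
      intro u hu hu'
      obtain ⟨x, hx, rfl⟩ := Finset.mem_image.mp hu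
      obtain ⟨y, hy, hxy⟩ := Finset.mem_image.mp hu'
      have hx' := (Finset.mem_filter.mp hx).2.2
      have hy' := (Finset.mem_filter.mp hy).2.2
      have h2 := congrArg FreeGroup.toWord hxy
      rw [toWord_el_mul_of hx', toWord_el_mul_of hy'] at h2
      exact hne (FreeGroup.toWord_injective (List.cons.inj h2).2).symm

end

theorem stmtLow : StmtLow := by
  intro r n hr
  obtain ⟨k, rfl⟩ : ∃ k, r = k + 1 := ⟨r - 1, by omega⟩
  set S : Set (FreeGroup (Fin (k + 1))) := {u | u.norm = n + 1 ∧
      ∃ f : FreeGroup (Fin (k + 1)) ≃* FreeGroup (Fin (k + 1)),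
        ∀ x ∈ (f u).toWord, x.2 = true} with hS
  have hfin : S.Finite := (finite_norm_le (n + 1)).subset fun u hu => hu.1.le
  have h1 : (((LL (0 : Fin (k + 1)) n).image fun g => el (0, true) * g :
      Finset (FreeGroup (Fin (k + 1)))) : Set (FreeGroup (Fin (k + 1)))) ⊆ S := by
    intro u hu
    rw [Finset.mem_coe] at hu
    obtain ⟨g, hg, rfl⟩ := Finset.mem_image.mp hu
    obtain ⟨hgZ, hgn⟩ := mem_LL _ g hg
    have hhd : hd g ≠ some (nv ((0 : Fin (k + 1)), true)) := by
      intro h
      have h2 : nv ((0 : Fin (k + 1)), true) ∈ g.toWord := List.mem_of_mem_head? h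
      exact hgZ _ h2 rfl
    refine ⟨?_, thetaE 0 1 g⁻¹ (ZS 0).one_mem ((ZS 0).inv_mem hgZ), ?_⟩
    · unfold FreeGroup.norm
      rw [toWord_el_mul_of hhd, List.length_cons]
      unfold FreeGroup.norm at hgn
      rw [hgn]
    · have h3 : thetaE 0 1 g⁻¹ (ZS 0).one_mem ((ZS 0).inv_mem hgZ) (el (0, true) * g) =
          el ((0 : Fin (k + 1)), true) := by
        rw [thetaE_apply, _root_.map_mul, el_true, theta_of_self, theta_fix _ _ hgZ]
        simp
      rw [h3, toWord_el]
      intro x hx
      rw [List.mem_singleton.mp hx]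
  have h2 := Set.ncard_le_ncard h1 hfin
  rw [Set.ncard_coe_finset, Finset.card_image_of_injective _ (mul_right_injective _)] at h2
  have h3 := card_LL (0 : Fin (k + 1)) n
  rw [Fintype.card_fin] at h3
  exact h3.trans h2

end Pool.Agent.Helper49.PX
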