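import Pool.Agent.Helper7.PX.Goals2
import Pool.Agent.Helper87.CG.F1a

/-!
# Project PX, packet CL: the choice of the classes
-/

set_option autoImplicit false

open Finset Filter Topology

open scoped Classical

namespace Pool.Agent.Helper49.PX

open Pool.Agent.Helper88.PP (pr Rg om QQ)
open Pool.Agent.Helper88.GM (NI XI In)
open Pool.Agent.Helper88.CG (pw StmtA1 StmtA3)
open Pool.Agent.Helper88.TU (Su StmtBT StmtA4)
open Pool.Agent.Helper7.PX
open Pool.Agent.Helper87.CG (pw_nonneg pw_of_not pw_le_one sum_classes coprime_of_prime)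

/-- one block is good for many classes -/
theorem good_card {Q : ℕ} {r s : ℕ → ℝ} {cA CB K0 L C2 : ℝ} (hcA : 0 < cA) (hCB : 0 < CB)
    (hK0 : 0 < K0) (hL : 0 < L) (hC2 : C2 = 4 * CB * K0 / cA) (s0 : ∀ b < Q, 0 ≤ s b)
    (h1 : Q * (cA * L) ≤ ∑ b ∈ range Q, r b) (h2 : ∀ b < Q, r b ≤ CB * s b)
    (h3 : ∑ b ∈ range Q, s b ^ 2 ≤ K0 * Q * L ^ 2) :
    cA / (2 * CB * C2) * Q ≤
      (((range Q).filter (fun b => cA / 4 * L ≤ r b ∧ s b ≤ C2 * L)).card : ℝ) := by
  have hC20 : 0 < C2 := by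
    rw [hC2]
    positivity
  have hpt : ∀ b ∈ range Q, r b ≤ (if cA / 4 * L ≤ r b ∧ s b ≤ C2 * L then CB * C2 * L else 0) +
      CB / (C2 * L) * s b ^ 2 + cA / 4 * L := by
    intro b hb
    have hb' := mem_range.1 hb
    have hs := s0 b hb'
    have h4 := h2 b hb'
    have h5 : 0 ≤ CB / (C2 * L) * s b ^ 2 := by positivity
    have h6 : 0 < cA / 4 * L := by positivity
    split_ifs with h
    · have h7 : CB * s b ≤ CB * (C2 * L) := mul_le_mul_of_nonneg_left h.2 hCB.le
      linarith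
    · rw [not_and_or, not_le, not_le] at h
      rcases h with h | h
      · linarith
      · have h7 : CB * s b ≤ CB / (C2 * L) * s b ^ 2 := by
          rw [div_mul_eq_mul_div, le_div_iff₀ (by positivity)]
          calc CB * s b * (C2 * L) ≤ CB * s b * s b :=
                mul_le_mul_of_nonneg_left h.le (by positivity)
            _ = CB * s b ^ 2 := by ring
        linarith
  have hsum := h1.trans (sum_le_sum hpt)
  rw [sum_add_distrib, sum_add_distrib, sum_const, card_range, nsmul_eq_mul, ← mul_sum,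
    ← sum_filter, sum_const, nsmul_eq_mul] at hsum
  have h8 : CB / (C2 * L) * ∑ b ∈ range Q, s b ^ 2 ≤ Q * (cA / 4 * L) := by
    calc CB / (C2 * L) * ∑ b ∈ range Q, s b ^ 2 ≤ CB / (C2 * L) * (K0 * Q * L ^ 2) :=
          mul_le_mul_of_nonneg_left h3 (by positivity)
      _ = Q * (cA / 4 * L) := by
          rw [hC2]
          field_simp
  rw [div_mul_eq_mul_div, div_le_iff₀ (by positivity)]
  have h9 : cA * Q / 2 * L ≤
      (((range Q).filter (fun b => cA / 4 * L ≤ r b ∧ s b ≤ C2 * L)).card : ℝ) * (CB * C2) * L := by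
    nlinarith
  have h10 := le_of_mul_le_mul_right h9 hL
  linarith

/-- many classes have many good blocks -/
theorem many {Q : ℕ} {H : Finset ℕ} (hH : H.Nonempty) {P : ℕ → ℕ → Prop} {κ : ℝ}
    (h : ∀ i ∈ H, κ * Q ≤ (((range Q).filter (fun b => P b i)).card : ℝ)) :
    κ / 2 * Q ≤ (((range Q).filter (fun b =>
      κ / 2 * H.card ≤ ((H.filter (P b)).card : ℝ))).card : ℝ) := by
  have hH0 : (0 : ℝ) < H.card := by exact_mod_cast hH.card_pos
  have h1 : ∑ b ∈ range Q, ((H.filter (P b)).card : ℝ) =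
      ∑ i ∈ H, (((range Q).filter (fun b => P b i)).card : ℝ) := by
    have e1 : ∀ b ∈ range Q, ((H.filter (P b)).card : ℝ) = ∑ i ∈ H, if P b i then (1 : ℝ) else 0 := by
      intro b _
      rw [card_filter]
      push_cast
      rfl
    have e2 : ∀ i ∈ H, (((range Q).filter (fun b => P b i)).card : ℝ) =
        ∑ b ∈ range Q, if P b i then (1 : ℝ) else 0 := by
      intro b _
      rw [card_filter]
      push_cast
      rfl
    rw [sum_congr rfl e1, sum_congr rfl e2, sum_comm]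
  have h2 : (H.card : ℝ) * (κ * Q) ≤ ∑ b ∈ range Q, ((H.filter (P b)).card : ℝ) := by
    rw [h1]
    have := card_nsmul_le_sum _ _ _ h
    rwa [nsmul_eq_mul] at this
  have hpt : ∀ b ∈ range Q, ((H.filter (P b)).card : ℝ) ≤
      (if κ / 2 * H.card ≤ ((H.filter (P b)).card : ℝ) then (H.card : ℝ) else 0) +
      (if 0 ≤ κ then κ / 2 * H.card else 0) := by
    intro b _
    have e1 : ((H.filter (P b)).card : ℝ) ≤ H.card := by
      exact_mod_cast card_le_card (filter_subset _ _)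
    have e2 : (0 : ℝ) ≤ ((H.filter (P b)).card : ℝ) := Nat.cast_nonneg _
    split_ifs with h3 h4 h4
    · have : 0 ≤ κ / 2 * H.card := by positivity
      linarith
    · linarith
    · linarith [not_le.1 h3]
    · exfalso
      have : κ / 2 * H.card ≤ 0 := by nlinarith [not_le.1 h4]
      exact h3 (this.trans e2)
  by_cases hκ : 0 ≤ κ
  · simp only [hκ, if_true] at hpt
    have h3 := h2.trans (sum_le_sum hpt)
    rw [sum_add_distrib, sum_const, card_range, nsmul_eq_mul, ← sum_filter, sum_const,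
      nsmul_eq_mul] at h3
    have h4 : κ / 2 * Q * H.card ≤ (((range Q).filter (fun b =>
      κ / 2 * H.card ≤ ((H.filter (P b)).card : ℝ))).card : ℝ) * H.card := by
      linarith
    exact le_of_mul_le_mul_right h4 hH0
  · have : κ / 2 * Q ≤ 0 := by
      have : (0 : ℝ) ≤ Q := Nat.cast_nonneg _
      nlinarith [not_le.1 hκ]
    exact this.trans (Nat.cast_nonneg _)

/-- Markov's inequality -/
theorem markov {Q : ℕ} {T : ℕ → ℝ} {a δ : ℝ} (ha : 0 < a) (hδ : 0 < δ) (T0 : ∀ b < Q, 0 ≤ T b)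
    (h : ∑ b ∈ range Q, T b ≤ Q * a) :
    (((range Q).filter (fun b => ¬ T b ≤ a / δ)).card : ℝ) ≤ δ * Q := by
  have hpt : ∀ b ∈ range Q, (if ¬ T b ≤ a / δ then a / δ else 0) ≤ T b := by
    intro b hb
    split_ifs with h1
    · exact T0 b (mem_range.1 hb)
    · exact (not_le.1 h1).le
  have h1 := (sum_le_sum hpt).trans h
  rw [← sum_filter, sum_const, nsmul_eq_mul, mul_div_assoc', div_le_iff₀ hδ] at h1
  have h2 : (((range Q).filter (fun b => ¬ T b ≤ a / δ)).card : ℝ) * a ≤ δ * Q * a := by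
    calc _ ≤ _ := h1
      _ = _ := by ring
  exact le_of_mul_le_mul_right h2 ha

/-- the pairs of distance at most `d` -/
theorem cp_le (Q b h l d : ℕ) (hd : 1 ≤ d) : cp (jb Q b h l) d ≤
    ∑ i ∈ range (l / d + 1), (((Ioc (h + i * d) (h + i * d + 2 * d)).filter
      (fun j => Nat.Coprime (b + j) Q)).card) ^ 2 := by
  have h1 : ((jb Q b h l ×ˢ jb Q b h l).filter (fun p => p.1 < p.2 ∧ p.2 ≤ p.1 + d)) ⊆
      (range (l / d + 1)).biUnion (fun i =>
        ((Ioc (h + i * d) (h + i * d + 2 * d)).filter (fun j => Nat.Coprime (b + j) Q)) ×ˢ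
        ((Ioc (h + i * d) (h + i * d + 2 * d)).filter (fun j => Nat.Coprime (b + j) Q))) := by
    rintro ⟨j, j'⟩ hp
    unfold jb at hp
    simp only [mem_filter, mem_product, mem_Ioc] at hp
    obtain ⟨⟨⟨⟨a1, a2⟩, a3⟩, ⟨a4, a5⟩, a6⟩, a7, a8⟩ := hp
    simp only [mem_biUnion, mem_range, mem_product, mem_filter, mem_Ioc]
    have e1 : d * ((j - h - 1) / d) ≤ j - h - 1 := Nat.mul_div_le _ _
    have e2 : j - h - 1 < d * ((j - h - 1) / d) + d := Nat.lt_mul_div_succ _ (by omega)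
    have e3 : (j - h - 1) / d ≤ l / d := Nat.div_le_div_right (by omega)
    rw [mul_comm] at e1 e2
    exact ⟨(j - h - 1) / d, by omega, ⟨⟨by omega, by omega⟩, a3⟩, ⟨by omega, by omega⟩, a6⟩
  unfold cp
  refine (card_le_card h1).trans (card_biUnion_le.trans (le_of_eq ?_))
  refine sum_congr rfl fun i _ => ?_
  rw [card_product, sq]

theorem hb' (Q v : ℕ) :
    ∑ b ∈ range Q, ((Icc 1 v).filter (fun h => Nat.Coprime (b + h) Q)).card
      = v * Nat.totient Q := by
  have h1 : ∀ b ∈ range Q, ((Icc 1 v).filter (fun h => Nat.Coprime (b + h) Q)).card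
      = ∑ h ∈ Icc 1 v, if Nat.Coprime (b + h) Q then 1 else 0 := fun b _ => card_filter _ _
  rw [sum_congr rfl h1, sum_comm]
  have h2 : ∀ h ∈ Icc 1 v, (∑ b ∈ range Q, if Nat.Coprime (b + h) Q then 1 else 0)
      = Nat.totient Q := by
    intro h _
    rw [← Nat.filter_coprime_Ico_eq_totient Q h, card_filter, sum_Ico_eq_sum_range,
      Nat.add_sub_cancel_left]
    refine sum_congr rfl fun b _ => if_congr ?_ rfl rfl
    rw [Nat.coprime_comm, Nat.add_comm]
  rw [sum_congr rfl h2, sum_const, Nat.card_Icc, Nat.add_sub_cancel, smul_eq_mul]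

theorem om_nonneg (y z : ℕ) : 0 ≤ om y z := by
  unfold om
  refine prod_nonneg fun p hp => ?_
  have h1 : 1 ≤ p := by
    unfold pr at hp
    exact (mem_filter.1 hp).2.one_lt.le
  have h2 : (1 : ℝ) ≤ p := by exact_mod_cast h1
  have h3 : 1 / (p : ℝ) ≤ 1 := by
    rw [div_le_one (by linarith)]
    exact h2
  linarith

/-- sizes -/
theorem sz {E z x y : ℕ} (hE : 3 ≤ E) (hS : Su E z x y) :
    E ≤ x ∧ 2 ≤ x ∧ 9 ≤ Real.log x ∧ 1 ≤ Real.log (Real.log x) ∧
      Real.log x / 20 ≤ ((x / 32 : ℕ) : ℝ) := by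
  obtain ⟨a1, a2, -, -, -⟩ := hS
  have hE' : (3 : ℝ) ≤ E := by exact_mod_cast hE
  have h1 : Real.exp ((E : ℝ) * E) ≤ x := by
    calc Real.exp ((E : ℝ) * E) = Real.exp E ^ E := Real.exp_nat_mul _ _
      _ ≤ (z : ℝ) ^ E := pow_le_pow_left₀ (Real.exp_pos _).le a1 _
      _ ≤ x := by exact_mod_cast a2
  have hx0 : (0 : ℝ) < x := lt_of_lt_of_le (Real.exp_pos _) h1
  have h2 : (E : ℝ) * E ≤ Real.log x := (Real.le_log_iff_exp_le hx0).2 h1
  have h9 : 9 ≤ Real.log x := by nlinarith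
  have h3 : 1 + Real.log x + Real.log x ^ 2 / 2 ≤ x := by
    have := Real.quadratic_le_exp_of_nonneg (by linarith : 0 ≤ Real.log x)
    rwa [Real.exp_log hx0] at this
  have h4 : (E : ℝ) ≤ x := by nlinarith
  refine ⟨by exact_mod_cast h4, ?_, h9, ?_, ?_⟩
  · have : (2 : ℝ) ≤ x := by nlinarith
    exact_mod_cast this
  · rw [Real.le_log_iff_exp_le (by linarith)]
    have := Real.exp_one_lt_d9
    linarith
  · have h5 : (x : ℝ) < 32 * ((x / 32 : ℕ) : ℝ) + 32 := by
      have : x < 32 * (x / 32) + 32 := by omega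
      exact_mod_cast this
    nlinarith

theorem cl (h3 : StmtBT) (h5 : StmtA1) (h6 : StmtA3) (h7 : StmtA4) : StmtCL := by
  obtain ⟨CB, hCB, E3, hBT⟩ := h3
  obtain ⟨cA, hcA, x5, hA1⟩ := h5
  obtain ⟨C3, hC3, x6, hA3⟩ := h6
  obtain ⟨C4, hC4, E7, hA4⟩ := h7
  obtain ⟨K0, hK0⟩ : ∃ K0 : ℝ, K0 = C3 * C4 ^ 2 := ⟨_, rfl⟩
  have hK00 : 0 < K0 := by rw [hK0]; positivity
  obtain ⟨C2, hC2⟩ : ∃ C2 : ℝ, C2 = 4 * CB * K0 / cA := ⟨_, rfl⟩
  have hC20 : 0 < C2 := by rw [hC2]; positivity
  obtain ⟨κ', hκ'⟩ : ∃ κ' : ℝ, κ' = cA / (2 * CB * C2) := ⟨_, rfl⟩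
  have hκ'0 : 0 < κ' := by rw [hκ']; positivity
  obtain ⟨C1, hC1⟩ : ∃ C1 : ℝ, C1 = 1 + C2 + 8 * C4 / κ' + 64 * K0 / κ' := ⟨_, rfl⟩
  have hC11 : 1 ≤ C1 := by
    rw [hC1]
    have : 0 < 8 * C4 / κ' := by positivity
    have : 0 < 64 * K0 / κ' := by positivity
    linarith
  have hC12 : C2 ≤ C1 := by
    rw [hC1]
    have : 0 < 8 * C4 / κ' := by positivity
    have : 0 < 64 * K0 / κ' := by positivity
    linarith
  have hC13 : 8 * C4 / κ' ≤ C1 := by
    rw [hC1]
    have : 0 < 64 * K0 / κ' := by positivity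
    linarith
  have hC14 : 64 * K0 / κ' ≤ C1 := by
    rw [hC1]
    have : 0 < 8 * C4 / κ' := by positivity
    linarith
  obtain ⟨c1, hc1⟩ : ∃ c1 : ℝ, c1 = min 1 (min (cA / 4) (cA / 4 / CB)) := ⟨_, rfl⟩
  have hc10 : 0 < c1 := by
    rw [hc1]
    exact lt_min one_pos (lt_min (by positivity) (by positivity))
  have hc11 : c1 ≤ 1 := hc1 ▸ min_le_left _ _
  have hc12 : c1 ≤ cA / 4 := hc1 ▸ (min_le_right _ _).trans (min_le_left _ _)
  have hc13 : c1 ≤ cA / 4 / CB := hc1 ▸ (min_le_right _ _).trans (min_le_right _ _)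
  obtain ⟨κ, hκ⟩ : ∃ κ : ℝ, κ = min 1 (κ' / 4) := ⟨_, rfl⟩
  have hκ0 : 0 < κ := by
    rw [hκ]
    exact lt_min one_pos (by positivity)
  have hκ1 : κ ≤ 1 := hκ ▸ min_le_left _ _
  have hκ2 : κ ≤ κ' / 4 := hκ ▸ min_le_right _ _
  refine ⟨κ, c1, C1, hκ0, hκ1, hc10, hc11, hC11, E3 + E7 + x5 + x6 + 3, ?_⟩
  intro E z x y hE hS H l d Y hH hd hdl hl hHY hYy
  obtain ⟨z1, z2, z3, z4, z5⟩ := sz (by omega) hS
  have hQ1 : 1 ≤ QQ x := primorial_pos _
  have hQ0 : (0 : ℝ) < QQ x := by exact_mod_cast hQ1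
  have hE0 : (0 : ℝ) < E := by exact_mod_cast (by omega : 0 < E)
  have hlog : 0 < Real.log x := by linarith
  have hd1 : 1 ≤ d := by
    have : (1 : ℝ) ≤ d := z4.trans hd
    exact_mod_cast this
  have hd0 : (0 : ℝ) < d := by exact_mod_cast hd1
  have hl0 : (0 : ℝ) < l := by exact_mod_cast (by omega : 0 < l)
  obtain ⟨X, hX⟩ : ∃ X : ℝ, X = XI (x / 32) x (QQ x) := ⟨_, rfl⟩
  have hXv : X * QQ x = ((x - x / 32 : ℕ) : ℝ) := by
    rw [hX]
    unfold XI
    exact div_mul_cancel₀ _ hQ0.ne'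
  have hX0 : 0 < X := by
    have : (0 : ℝ) < ((x - x / 32 : ℕ) : ℝ) := by
      have : 0 < x - x / 32 := by omega
      exact_mod_cast this
    rw [← hXv] at this
    exact (pos_iff_pos_of_mul_pos this).2 hQ0
  obtain ⟨o, ho⟩ : ∃ o : ℝ, o = om y z / E := ⟨_, rfl⟩
  have hom0 : 0 ≤ om y z := om_nonneg y z
  have ho0 : 0 ≤ o := by rw [ho]; positivity
  obtain ⟨fq, hfq⟩ : ∃ fq : ℝ, fq = (Nat.totient (QQ x) : ℝ) / QQ x := ⟨_, rfl⟩
  have hfq0 : 0 < fq := by
    rw [hfq]
    have : (0 : ℝ) < Nat.totient (QQ x) := by exact_mod_cast Nat.totient_pos.2 hQ1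
    positivity
  have hA4' := hA4 E z x y (by omega) hS
  rw [← hfq] at hA4'
  have hofq : o * fq ≤ C4 / Real.log x := by
    rw [ho, div_mul_eq_mul_div, div_le_iff₀ hE0]
    calc om y z * fq ≤ C4 * (E / Real.log x) := hA4'
      _ = C4 / Real.log x * E := by ring
  obtain ⟨L, hL⟩ : ∃ L : ℝ, L = l / Real.log x := ⟨_, rfl⟩
  have hL0 : 0 < L := by rw [hL]; positivity
  have hlfq : ∀ t : ℕ, (t : ℝ) * (o * fq) ≤ C4 * (t / Real.log x) := by
    intro t
    calc (t : ℝ) * (o * fq) ≤ t * (C4 / Real.log x) :=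
          mul_le_mul_of_nonneg_left hofq (Nat.cast_nonneg _)
      _ = _ := by ring
  -- one block
  have hone : ∀ h ∈ H, κ' * QQ x ≤ (((range (QQ x)).filter (fun b =>
      cA / 4 * L ≤ rho x b h l ∧ o * (jb (QQ x) b h l).card ≤ C2 * L)).card : ℝ) := by
    intro h hh
    have hhY := hHY h hh
    rw [hκ']
    have hj : ∀ j ∈ Ioc h (h + l), j ∈ Icc 1 y := by
      intro j hj
      rw [mem_Ioc] at hj
      rw [mem_Icc]
      omega
    refine good_card (r := fun b => rho x b h l) (s := fun b => o * (jb (QQ x) b h l).card)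
      hcA hCB hK00 hL0 hC2 (fun b _ => by positivity) ?_ ?_ ?_
    · -- (1)
      unfold rho
      rw [← sum_div, ← hX, le_div_iff₀ hX0, sum_comm]
      have e1 : ∀ j ∈ Ioc h (h + l), cA * (x / Real.log x) ≤
          ∑ b ∈ range (QQ x), ∑ n ∈ NI (x / 32) x (QQ x) b, pw x (n + j) := by
        intro j hj'
        rw [sum_classes _ _ _ hQ1 (fun n => pw x (n + j))]
        refine hA1 x (by omega) j ?_
        have := (mem_Icc.1 (hj j hj')).2
        exact le_trans (by exact_mod_cast this) hS.2.2.2.2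
      have e2 := card_nsmul_le_sum _ _ _ e1
      rw [Nat.card_Ioc, Nat.add_sub_cancel_left, nsmul_eq_mul] at e2
      refine le_trans ?_ e2
      have e3 : X * QQ x ≤ x := by
        rw [hXv]
        exact_mod_cast Nat.sub_le _ _
      calc QQ x * (cA * L) * X = (X * QQ x) * (cA * L) := by ring
        _ ≤ x * (cA * L) := mul_le_mul_of_nonneg_right e3 (by positivity)
        _ = l * (cA * (x / Real.log x)) := by
            rw [hL]
            ring
    · -- (2)
      intro b hb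
      unfold rho
      rw [← hX, div_le_iff₀ hX0]
      have e2 : ∑ j ∈ Ioc h (h + l), ∑ n ∈ NI (x / 32) x (QQ x) b, pw x (n + j) =
          ∑ j ∈ jb (QQ x) b h l, ∑ n ∈ NI (x / 32) x (QQ x) b, pw x (n + j) := by
        symm
        refine sum_subset (filter_subset _ _) fun j hj1 hj2 => ?_
        refine sum_eq_zero fun n hn => pw_of_not _ _ fun hp => hj2 ?_
        exact mem_filter.2 ⟨hj1, coprime_of_prime z5 hn hp⟩
      rw [e2]
      have e3 : ∀ j ∈ jb (QQ x) b h l, ∑ n ∈ NI (x / 32) x (QQ x) b, pw x (n + j) ≤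
          CB * (X * o) := by
        intro j hj1
        have e4 := hBT E z x y (by omega) hS b hb j (hj j (mem_filter.1 hj1).1)
        rw [← hX, ← ho] at e4
        refine le_trans ?_ e4
        rw [card_filter]
        push_cast
        refine sum_le_sum fun n _ => ?_
        split_ifs with hp
        · exact pw_le_one x _ z2
        · exact (pw_of_not _ _ hp).le
      have e5 := sum_le_card_nsmul _ _ _ e3
      rw [nsmul_eq_mul] at e5
      refine e5.trans (le_of_eq ?_)
      ring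
    · -- (3)
      have e1 := hA3 x (by omega) h l (hd.trans (by exact_mod_cast hdl))
      rw [← hfq] at e1
      have e2 : ∑ b ∈ range (QQ x), (o * ((jb (QQ x) b h l).card : ℝ)) ^ 2 ≤
          o ^ 2 * (C3 * QQ x * (l * fq) ^ 2) := by
        have e3 : ∀ b ∈ range (QQ x), (o * ((jb (QQ x) b h l).card : ℝ)) ^ 2 =
            o ^ 2 * ((jb (QQ x) b h l).card : ℝ) ^ 2 := fun b _ => mul_pow _ _ _
        rw [sum_congr rfl e3, ← mul_sum]
        exact mul_le_mul_of_nonneg_left e1 (by positivity)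
      refine e2.trans ?_
      have e4 : ((l : ℝ) * (o * fq)) ^ 2 ≤ (C4 * L) ^ 2 := by
        rw [hL]
        exact pow_le_pow_left₀ (by positivity) (hlfq l) 2
      calc o ^ 2 * (C3 * QQ x * (l * fq) ^ 2) = C3 * QQ x * ((l : ℝ) * (o * fq)) ^ 2 := by ring
        _ ≤ C3 * QQ x * (C4 * L) ^ 2 := mul_le_mul_of_nonneg_left e4 (by positivity)
        _ = K0 * QQ x * L ^ 2 := by
            rw [hK0]
            ring
  have hmany : κ' / 2 * QQ x ≤ (((range (QQ x)).filter (fun b =>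
      κ' / 2 * H.card ≤ ((H.filter (fun h => cA / 4 * L ≤ rho x b h l ∧
        o * (jb (QQ x) b h l).card ≤ C2 * L)).card : ℝ))).card : ℝ) := by
    convert many (P := fun b h => cA / 4 * L ≤ rho x b h l ∧
      o * (jb (QQ x) b h l).card ≤ C2 * L) (κ := κ') (Q := QQ x) hH
      (fun h hh => by convert hone h hh)
  -- the number of points
  have hY0 : (0 : ℝ) < Y := by
    obtain ⟨h, hh⟩ := hH
    have := hHY h hh
    exact_mod_cast (by omega : 0 < Y)
  have hm5 := markov (Q := QQ x)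
    (T := fun b => (((Icc 1 Y).filter (fun j => Nat.Coprime (b + j) (QQ x))).card : ℝ))
    (a := Y * fq) (δ := κ' / 8) (by positivity) (by positivity) (fun b _ => by positivity) (by
      have e1 := hb' (QQ x) Y
      have e2 : ∑ b ∈ range (QQ x), (((Icc 1 Y).filter (fun j => Nat.Coprime (b + j) (QQ x))).card : ℝ)
          = (Y : ℝ) * Nat.totient (QQ x) := by exact_mod_cast e1
      rw [e2, hfq]
      refine le_of_eq ?_
      field_simp)
  -- the pairs
  have hHc : (0 : ℝ) < H.card := by exact_mod_cast hH.card_pos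
  have hcp : ∀ h ∈ H, ∑ b ∈ range (QQ x), o ^ 2 * (cp (jb (QQ x) b h l) d : ℝ) ≤
      QQ x * (8 * K0 * (L * (d / Real.log x))) := by
    intro h hh
    have e1 : ∀ b ∈ range (QQ x), o ^ 2 * (cp (jb (QQ x) b h l) d : ℝ) ≤
        o ^ 2 * ∑ i ∈ range (l / d + 1), (((Ioc (h + i * d) (h + i * d + 2 * d)).filter
          (fun j => Nat.Coprime (b + j) (QQ x))).card : ℝ) ^ 2 := by
      intro b _
      refine mul_le_mul_of_nonneg_left ?_ (by positivity)
      exact_mod_cast cp_le (QQ x) b h l d hd1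
    refine (sum_le_sum e1).trans ?_
    rw [← mul_sum, sum_comm]
    have e2 : ∀ i ∈ range (l / d + 1), ∑ b ∈ range (QQ x),
        (((Ioc (h + i * d) (h + i * d + 2 * d)).filter
          (fun j => Nat.Coprime (b + j) (QQ x))).card : ℝ) ^ 2 ≤
        C3 * QQ x * ((2 * d : ℕ) * fq) ^ 2 := by
      intro i _
      have := hA3 x (by omega) (h + i * d) (2 * d) (hd.trans (by
        push_cast
        linarith))
      rwa [← hfq] at this
    have e3 := sum_le_card_nsmul _ _ _ e2
    rw [card_range, nsmul_eq_mul] at e3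
    have e4 : ((l / d + 1 : ℕ) : ℝ) ≤ 2 * (l / d) := by
      have e5 : ((l / d : ℕ) : ℝ) ≤ l / d := Nat.cast_div_le
      have e6 : (1 : ℝ) ≤ l / d := by
        rw [le_div_iff₀ hd0, one_mul]
        exact_mod_cast hdl
      push_cast
      linarith
    have e7 : ((d : ℝ) * (o * fq)) ^ 2 ≤ (C4 * (d / Real.log x)) ^ 2 :=
      pow_le_pow_left₀ (by positivity) (hlfq d) 2
    calc o ^ 2 * ∑ i ∈ range (l / d + 1), ∑ b ∈ range (QQ x),
          (((Ioc (h + i * d) (h + i * d + 2 * d)).filter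
            (fun j => Nat.Coprime (b + j) (QQ x))).card : ℝ) ^ 2
        ≤ o ^ 2 * (((l / d + 1 : ℕ) : ℝ) * (C3 * QQ x * ((2 * d : ℕ) * fq) ^ 2)) :=
          mul_le_mul_of_nonneg_left e3 (by positivity)
      _ ≤ o ^ 2 * ((2 * (l / d)) * (C3 * QQ x * ((2 * d : ℕ) * fq) ^ 2)) :=
          mul_le_mul_of_nonneg_left (mul_le_mul_of_nonneg_right e4 (by positivity)) (by positivity)
      _ = 8 * C3 * QQ x * (l / d) * ((d : ℝ) * (o * fq)) ^ 2 := by
          push_cast
          ring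
      _ ≤ 8 * C3 * QQ x * (l / d) * (C4 * (d / Real.log x)) ^ 2 :=
          mul_le_mul_of_nonneg_left e7 (by positivity)
      _ = QQ x * (8 * K0 * (L * (d / Real.log x))) := by
          rw [hK0, hL]
          field_simp
  have hm6 := markov (Q := QQ x)
    (T := fun b => ∑ h ∈ H, o ^ 2 * (cp (jb (QQ x) b h l) d : ℝ))
    (a := 8 * K0 * (H.card * (L * (d / Real.log x)))) (δ := κ' / 8) (by positivity) (by positivity)
    (fun b _ => by positivity) (by
      rw [sum_comm]
      have e1 := sum_le_card_nsmul _ _ _ hcp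
      rw [nsmul_eq_mul] at e1
      refine e1.trans (le_of_eq ?_)
      ring)
  -- the conclusion
  rw [← ho, ← hL]
  obtain ⟨G, hG⟩ : ∃ G : Finset ℕ, G = (range (QQ x)).filter (fun b =>
      κ' / 2 * H.card ≤ ((H.filter (fun h => cA / 4 * L ≤ rho x b h l ∧
        o * (jb (QQ x) b h l).card ≤ C2 * L)).card : ℝ)) := ⟨_, rfl⟩
  obtain ⟨B5, hB5⟩ : ∃ B5 : Finset ℕ, B5 = (range (QQ x)).filter (fun b =>
      ¬ (((Icc 1 Y).filter (fun j => Nat.Coprime (b + j) (QQ x))).card : ℝ) ≤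
        Y * fq / (κ' / 8)) := ⟨_, rfl⟩
  obtain ⟨B6, hB6⟩ : ∃ B6 : Finset ℕ, B6 = (range (QQ x)).filter (fun b =>
      ¬ (∑ h ∈ H, o ^ 2 * (cp (jb (QQ x) b h l) d : ℝ)) ≤
        8 * K0 * (H.card * (L * (d / Real.log x))) / (κ' / 8)) := ⟨_, rfl⟩
  rw [← hG] at hmany
  rw [← hB5] at hm5
  rw [← hB6] at hm6
  have hcard : κ' / 4 * QQ x ≤ ((G \ (B5 ∪ B6)).card : ℝ) := by
    have e1 : G.card ≤ (G \ (B5 ∪ B6)).card + (B5 ∪ B6).card := by
      have := Finset.card_sdiff_add_card G (B5 ∪ B6)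
      have e2 : G.card ≤ (G ∪ (B5 ∪ B6)).card := card_le_card subset_union_left
      omega
    have e2 : (B5 ∪ B6).card ≤ B5.card + B6.card := card_union_le _ _
    have e3 : (G.card : ℝ) ≤ ((G \ (B5 ∪ B6)).card : ℝ) + (B5.card + B6.card) := by
      exact_mod_cast e1.trans (Nat.add_le_add_left e2 _)
    linarith
  have hsub : G \ (B5 ∪ B6) ⊆ (range (QQ x)).filter (fun b =>
    (((Icc 1 Y).filter (fun j => Nat.Coprime (b + j) (QQ x))).card : ℝ) * om y z
      ≤ C1 * (E * (Y / Real.log x)) ∧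
    κ * H.card ≤ ((H.filter (fun h => c1 * L ≤ rho x b h l ∧
      c1 * L ≤ o * (jb (QQ x) b h l).card ∧
      o * (jb (QQ x) b h l).card ≤ C1 * L)).card : ℝ) ∧
    ∑ h ∈ H, o ^ 2 * (cp (jb (QQ x) b h l) d : ℝ)
      ≤ C1 * (H.card * (L * (d / Real.log x)))) := by
    intro b hb
    rw [Finset.mem_sdiff, Finset.mem_union, not_or, hG, hB5, hB6] at hb
    obtain ⟨hb1, hb2, hb3⟩ := hb
    rw [mem_filter] at hb1 hb2 hb3
    have hbQ := hb1.1
    have hb2' : (((Icc 1 Y).filter (fun j => Nat.Coprime (b + j) (QQ x))).card : ℝ) ≤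
        Y * fq / (κ' / 8) := by
      by_contra hc
      exact hb2 ⟨hbQ, hc⟩
    have hb3' : (∑ h ∈ H, o ^ 2 * (cp (jb (QQ x) b h l) d : ℝ)) ≤
        8 * K0 * (H.card * (L * (d / Real.log x))) / (κ' / 8) := by
      by_contra hc
      exact hb3 ⟨hbQ, hc⟩
    rw [mem_filter]
    refine ⟨hbQ, ?_, ?_, ?_⟩
    · calc (((Icc 1 Y).filter (fun j => Nat.Coprime (b + j) (QQ x))).card : ℝ) * om y z
          ≤ Y * fq / (κ' / 8) * om y z := mul_le_mul_of_nonneg_right hb2' hom0
        _ = 8 * Y / κ' * (om y z * fq) := by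
            field_simp
        _ ≤ 8 * Y / κ' * (C4 * (E / Real.log x)) := mul_le_mul_of_nonneg_left hA4' (by positivity)
        _ = 8 * C4 / κ' * (E * (Y / Real.log x)) := by
            field_simp
        _ ≤ C1 * (E * (Y / Real.log x)) := mul_le_mul_of_nonneg_right hC13 (by positivity)
    · have e1 : κ * H.card ≤ κ' / 2 * H.card :=
        mul_le_mul_of_nonneg_right (by linarith) (Nat.cast_nonneg _)
      refine e1.trans (hb1.2.trans ?_)
      have e2 : H.filter (fun h => cA / 4 * L ≤ rho x b h l ∧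
          o * (jb (QQ x) b h l).card ≤ C2 * L) ⊆ H.filter (fun h => c1 * L ≤ rho x b h l ∧
          c1 * L ≤ o * (jb (QQ x) b h l).card ∧ o * (jb (QQ x) b h l).card ≤ C1 * L) := by
        intro h hh
        rw [mem_filter] at hh ⊢
        obtain ⟨g1, g2, g3⟩ := hh
        have hhY := hHY h g1
        have hj : ∀ j ∈ Ioc h (h + l), j ∈ Icc 1 y := by
          intro j hj
          rw [mem_Ioc] at hj
          rw [mem_Icc]
          omega
        refine ⟨g1, (mul_le_mul_of_nonneg_right hc12 hL0.le).trans g2, ?_,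
          g3.trans (mul_le_mul_of_nonneg_right hC12 hL0.le)⟩
        have e5 : rho x b h l ≤ CB * (o * (jb (QQ x) b h l).card) := by
          unfold rho
          rw [← hX, div_le_iff₀ hX0]
          have e2 : ∑ j ∈ Ioc h (h + l), ∑ n ∈ NI (x / 32) x (QQ x) b, pw x (n + j) =
              ∑ j ∈ jb (QQ x) b h l, ∑ n ∈ NI (x / 32) x (QQ x) b, pw x (n + j) := by
            symm
            refine sum_subset (filter_subset _ _) fun j hj1 hj2 => ?_
            refine sum_eq_zero fun n hn => pw_of_not _ _ fun hp => hj2 ?_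
            exact mem_filter.2 ⟨hj1, coprime_of_prime z5 hn hp⟩
          rw [e2]
          have e3 : ∀ j ∈ jb (QQ x) b h l, ∑ n ∈ NI (x / 32) x (QQ x) b, pw x (n + j) ≤
              CB * (X * o) := by
            intro j hj1
            have e4 := hBT E z x y (by omega) hS b (mem_range.1 hbQ) j
              (hj j (mem_filter.1 hj1).1)
            rw [← hX, ← ho] at e4
            refine le_trans ?_ e4
            rw [card_filter]
            push_cast
            refine sum_le_sum fun n _ => ?_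
            split_ifs with hp
            · exact pw_le_one x _ z2
            · exact (pw_of_not _ _ hp).le
          have e5 := sum_le_card_nsmul _ _ _ e3
          rw [nsmul_eq_mul] at e5
          refine e5.trans (le_of_eq ?_)
          ring
        have e6 : cA / 4 / CB * L ≤ o * (jb (QQ x) b h l).card := by
          rw [div_mul_eq_mul_div, div_le_iff₀ hCB]
          linarith
        exact (mul_le_mul_of_nonneg_right hc13 hL0.le).trans e6
      exact_mod_cast card_le_card e2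
    · refine hb3'.trans ?_
      calc 8 * K0 * (H.card * (L * (d / Real.log x))) / (κ' / 8)
          = 64 * K0 / κ' * (H.card * (L * (d / Real.log x))) := by
            field_simp
            ring
        _ ≤ C1 * (H.card * (L * (d / Real.log x))) :=
            mul_le_mul_of_nonneg_right hC14 (by positivity)
  calc κ * QQ x ≤ κ' / 4 * QQ x := mul_le_mul_of_nonneg_right hκ2 hQ0.le
    _ ≤ ((G \ (B5 ∪ B6)).card : ℝ) := hcard
    _ ≤ _ := by exact_mod_cast card_le_card hsub

end Pool.Agent.Helper49.PX
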